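import Mathlib
import Pool.Agent.H387R3.ZT.Final3

/-!
# Linear ramification growth of the splitting fields of the zeta functions in a `ℤ_p`-tower
(Wan's conjecture)

For every `ℤ_p`-tower of curves `X_n` over a finite field of characteristic `p` with finite ramification
locus, the ramification index over `ℚ_p` of the splitting field of `P(X_n, s)` is at least `c p ^ n`
for all large `n`.
-/

open PowerSeries

namespace Pool.Agent.Results.MP_51ecca_nt.LinearRamification

open Pool.Agent.H707R3

open scoped PowerSeries.WithPiTopology in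
/-- The zeta function `Z(X, s) = ∏ (1 - s ^ deg x)⁻¹`, product over the closed points `x` of the curve
`X` with function field `K` over `k`. -/
noncomputable def zeta (p : ℕ) [Fact p.Prime] (k K : Type) [Field k] [Field K] [Algebra k K] :
    PowerSeries ℂ_[p] :=
  ∏' x : Place k K, (1 - X ^ x.deg)⁻¹

/-- `A` is the multiset of reciprocal roots of `P(X, s) = Z(X, s) (1 - s) (1 - q s)`, `q = #k`:
`P(X, s) = ∏ (1 - α s)`, product over `α ∈ A`. -/
def IsRecipRoots (p : ℕ) [Fact p.Prime] (k K : Type) [Field k] [Field K] [Algebra k K]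
    (A : Multiset ℂ_[p]) : Prop :=
  zeta p k K * (1 - X) * (1 - C (Nat.card k : ℂ_[p]) * X) = (A.map fun α => 1 - C α * X).prod

/-- For every `ℤ_p`-tower there are `c > 0` and `N` such that for `n ≥ N` the zeta function of the
layer `X_n` (the intermediate field `K` with `[K : F] = p ^ n`) has reciprocal roots as above, and the
ramification index over `ℚ_p` of the field they generate is at least `c p ^ n`. -/
theorem result (p : ℕ) [Fact p.Prime] (k F E : Type) [Field k] [Finite k] [CharP k p]
    [Field F] [Algebra k F] [Field E] [Algebra F E] [Algebra k E] [IsScalarTower k F E]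
    (h : IsZpTower k F E p) :
    ∃ c : ℝ, 0 < c ∧ ∃ N : ℕ, ∀ n, N ≤ n →
      ∀ K : IntermediateField F E, Module.finrank F K = p ^ n →
        (∃ A, IsRecipRoots p k K A) ∧
          ∀ A, IsRecipRoots p k K A →
            c ≤ ((p : ℝ) ^ n)⁻¹ * ramIdx (IntermediateField.adjoin ℚ_[p] {α : ℂ_[p] | α ∈ A}) := by
  obtain ⟨c, hc, N, hN⟩ := H387R3.ZT.linear h
  exact ⟨c, hc, N, fun n hn K hK => ⟨H387R3.ZT.exists_roots h K n hK, fun A hA => hN n hn K hK A hA⟩⟩

end Pool.Agent.Results.MP_51ecca_nt.LinearRamification
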